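import Pool.Agent.J6H17.RF.FConD
import Pool.Agent.J6H49.OP.Main

/-!
# The finite consistency conjecture relative to nearly collapsed oracles

The nonuniform finite consistency conjecture implies `NP ≠ coNP`, and even `NE ≠ coNE`. We show that for
relativizing proofs such consequences cannot be strengthened much: for an arbitrarily slowly growing
unbounded function `α` there are oracles relative to which polynomial space is in time `n ^ O(α n)`,
and similarly for exponential and double exponential space, and nevertheless the conjecture is true.
The relativized notions are explained in `Pool.Agent.Results.MP_435dae_lc.RandomOracle` and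
`Pool.Agent.J6H17.RF.Defs`, `Pool.Agent.J6H17.RF.FCon`.
-/

set_option autoImplicit false

namespace Pool.Agent.Results.MP_435dae_lc.NearCollapse

open MeasureTheory Pool.Agent.NPC Pool.Agent.H628R3.RO Pool.Agent.J6H49.OP
open Pool.Agent.J6H17.RF

/-- Let `α : ℕ → ℕ` be nondecreasing and unbounded and let `C` be any oracle. There is a map `O` on
the oracles such that `O A` contains `A` and `C` and is nearly collapsed with the function `α`, for
every `A`, and for a random oracle `A` (fair coin tosses) with probability one the nonuniform finite
consistency conjecture is true relative to `O A`. -/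
theorem result (α : ℕ → ℕ) (hα : Monotone α) (hα' : Filter.Tendsto α Filter.atTop Filter.atTop)
    (C : Oracle) : ∃ O : Oracle → Oracle,
      (∀ A, NearlyCollapsed α (O A) ∧ Contains (O A) A ∧ Contains (O A) C) ∧
      ∀ᵐ A ∂randomOracle, ConQuestion (O A) := by
  obtain ⟨O, h1, h2, -, -⟩ := main α hα hα' C
  refine ⟨O, h1, ?_⟩
  filter_upwards [h2] with A hA
  exact fun B μ hB S hS hBS hcS => con_fin (O A) (fun L hL => hA L hL) B μ hB S hS hBS hcS

end Pool.Agent.Results.MP_435dae_lc.NearCollapse
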