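import Pool.Agent.J6H17.RF.FCon2
import Pool.Agent.J6H54.RO.FinT

/-!
# The nonuniform finite consistency conjecture relative to a random oracle

The question is whether for every consistent theory `S` containing `S¹₂` there is such a theory `T` for
which the lengths of the proofs in `S` of the finite consistency statements `Con_T (n)` are not
polynomially bounded. We show that the answer is positive relative to a random oracle `A`, with a
lower bound `2 ^ (n ^ (1 / k))` for infinitely many `n`.

**The relativized notions** (`Pool.Agent.J6H17.RF.Defs`, `Pool.Agent.J6H17.RF.FCon`). The language has
a predicate symbol for the oracle. A theory relative to `A` is a set of axioms (in a Hilbert calculus;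
the logical axioms are among the axioms) that is decidable in polynomial time relative to `A`.
`BaseC A B μ`: `B` is a consistent theory, the formula `μ (e, x, z)` is universal for `NP` relative to
`A` (every sentence `μ (e, x, z)` is provable or refutable in `B` and for every `L` in `NP` relative
to `A` there are `e` and a polynomial `p` such that, if `|z| ≥ p (|x|)`, then `x ∈ L` if and only if
`μ (e, x, z)` is provable), and the finite consistency statements of every theory have a
formalization in `B`: a formula `Cn` such that `B` decides correctly the sentences `Cn (n)` (there is
no contradiction of length at most `n`), and such that from a proof of `¬ μ (e, x, z)` in the theory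
of length at most `m` one gets a proof in `B` of `Cn (q m) → ¬ μ (e, x, z)` of length at most `p m`,
for some polynomials `p`, `q` (this is the formalized `Σ₁ᵇ` completeness of `B`).

**The proof.** The function which maps a pair of `v = (e, x, z)` and a proof of `¬ μ v` in `S` to `v`
is a proof system for the set of all `v` for which `¬ μ v` is provable in `B`, which is hard for
`coNP`. Relative to a random oracle there is, for every proof system of such a set, another one, `g`,
that is exponentially faster infinitely often. Consider the theory `T` which has, besides the axioms of
`B`, the axioms `x_c = x_c → ¬ μ (g w)`, where `c` is the number of the string `w`. A short proof in `S`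
of the finite consistency of `T` would give a short proof in `S` of `¬ μ (g w)`.
-/

set_option autoImplicit false

namespace Pool.Agent.Results.MP_435dae_lc.RandomOracle

open MeasureTheory Pool.Agent.NPC Pool.Agent.H628R3.RO
open Pool.Agent.J6H17.RF

/-- For almost all oracles `A` (fair coin tosses): for every base theory `B` with universal formula `μ`
and every consistent theory `S ⊇ B` relative to `A` there is a consistent theory `T ⊇ B` relative to
`A`, with the same theorems as `B`, such that for every formalization `Cn` of its finite consistency
statements there is `k` such that for infinitely many `n` the length `m` of every proof of `Cn (n)` in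
`S` satisfies `n ≤ (log₂ m) ^ k`, that is, `m ≥ 2 ^ (n ^ (1 / k))`. -/
theorem result : ∀ᵐ A ∂randomOracle, ∀ (B : Set Fm) (μ : Fm), BaseC A B μ →
    ∀ S : Set Fm, Theory A S → B ⊆ S → Consistent S →
      ∃ T : Set Fm, Theory A T ∧ B ⊆ T ∧ Consistent T ∧ (∀ φ, Proves T φ ↔ Proves B φ) ∧
        ∀ Cn : Fm, FinCon B μ T Cn →
          ∃ k : ℕ, {n : ℕ | ∀ m, ProvesIn S m (at1 Cn n) → n ≤ Nat.log 2 m ^ k}.Infinite := by
  filter_upwards [Pool.Agent.J6H54.RO.final_T] with A hA B μ hB S hS hBS hcS
  exact con_fin2 A (fun L hL P hP => hA L hL P hP) B μ hB S hS hBS hcS

end Pool.Agent.Results.MP_435dae_lc.RandomOracle
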